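import Pool.Agent.H182R3.MO.Main

/-!
Q2 of MP_9de1de_an has a negative answer for every `0 < α < 1`: there are smooth, radial, real valued,
non-analytic functions `f` on the open unit disc with `∫_{C_z} f(ζ) dζ = 0` for every circle
`C_z = {|ζ - z| = α (1 - |z|)}`.  Even more, every smooth radial function with compact support in
`{|z| < α}` is the restriction to `{|z| ≤ α}` of a smooth radial solution on the whole open disc.

Proof.  For radial `f(z) = h(|z|²)` the condition is an equation
`∫_0^π h(U(r,t)) cos t dt = 0`, `0 ≤ r < 1`, where `U(r,t) ≤ (α + (1-α) r)²`.  For a `C^∞` function `h`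
solving it for `r ≤ r₀` the equation for `r₀ ≤ r ≤ r₁` becomes an Abel type Volterra equation of the
first kind with smooth kernel for the values of `h` beyond `(α + (1-α) r₀)²`, as long as the inner end
of the circles stays below this value; a half integration makes it a Volterra equation of the second
kind.  Its solution is smooth and flat at the starting point, so the solution can be continued up to
`|z| = 1` in countably many steps.
-/

set_option autoImplicit false

open MeasureTheory Set Filter Topology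
open scoped ContDiff Real

namespace Pool.Agent.Results.MP_9de1de_an.OpenDiscCounterexample

open Pool.Agent.H182R3.MO

/-- Let `0 < α < 1` and let `φ` be a real `C^∞` function on the line that vanishes on `[c, ∞)` for some
`c < α²`.  Then there is a radial function `f` on the plane, infinitely often real differentiable in
the open unit disc, with `f z = φ (|z|²)` for `|z| ≤ α`, all of whose integrals over the circles
`|ζ - z| = α (1 - |z|)`, `|z| < 1`, vanish; if `φ u ≠ 0` for some `u ≥ 0`, then `f` is not analytic in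
the open unit disc. -/
theorem result : ∀ α : ℝ, 0 < α → α < 1 → ∀ φ : ℝ → ℝ, ContDiff ℝ ∞ φ →
    (∃ c < α ^ 2, ∀ u, c ≤ u → φ u = 0) →
    ∃ f : ℂ → ℂ, ContDiffOn ℝ ∞ f (Metric.ball 0 1) ∧
      (∀ z w : ℂ, ‖z‖ = ‖w‖ → f z = f w) ∧
      (∀ z : ℂ, ‖z‖ ≤ α → f z = ((φ (‖z‖ ^ 2) : ℝ) : ℂ)) ∧
      (∀ z : ℂ, ‖z‖ < 1 → circleIntegral f z (α * (1 - ‖z‖)) = 0) ∧
      ((∃ u : ℝ, 0 ≤ u ∧ φ u ≠ 0) → ¬ AnalyticOn ℂ f (Metric.ball 0 1)) := by
  intro α h0 h1 φ hφ hc
  obtain ⟨h, he, hs, hE⟩ := extension α h0 h1 φ hφ hc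
  obtain ⟨c, hc1, hc2⟩ := hc
  obtain ⟨g1, g2⟩ := circ α h0 h1 h hs hE
  have hα2 : α ^ 2 < 1 := by nlinarith
  have hα2p : 0 < α ^ 2 := by positivity
  refine ⟨fun z : ℂ => ((h (‖z‖ ^ 2) : ℝ) : ℂ), g1, ?_, ?_, g2, ?_⟩
  · intro z w hzw
    simp only [hzw]
  · intro z hz
    have h2 : ‖z‖ ^ 2 ≤ α ^ 2 := by
      have := norm_nonneg z
      nlinarith
    simp only [he _ h2]
  · rintro ⟨u, hu0, hu⟩ han
    have huc : u < c := by
      by_contra hcu
      exact hu (hc2 u (not_lt.1 hcu))
    have han' : AnalyticOnNhd ℂ (fun z : ℂ => ((h (‖z‖ ^ 2) : ℝ) : ℂ)) (Metric.ball 0 1) :=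
      (Metric.isOpen_ball.analyticOn_iff_analyticOnNhd).mp han
    set s : ℝ := (c + α ^ 2) / 2 with hs'
    have hs1 : c < s := by linarith
    have hs2 : s < α ^ 2 := by linarith
    have hs0 : 0 < s := by linarith
    have hnorm : ∀ x : ℝ, 0 ≤ x → ‖((Real.sqrt x : ℝ) : ℂ)‖ ^ 2 = x := by
      intro x hx
      rw [Complex.norm_real, Real.norm_eq_abs, sq_abs, Real.sq_sqrt hx]
    have hball : ∀ x : ℝ, 0 ≤ x → x < 1 → ((Real.sqrt x : ℝ) : ℂ) ∈ Metric.ball (0 : ℂ) 1 := by
      intro x hx hx1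
      rw [mem_ball_zero_iff]
      have h3 := hnorm x hx
      have h4 := norm_nonneg ((Real.sqrt x : ℝ) : ℂ)
      nlinarith
    have hz : (fun z : ℂ => ((h (‖z‖ ^ 2) : ℝ) : ℂ)) =ᶠ[𝓝 ((Real.sqrt s : ℝ) : ℂ)] 0 := by
      have hcont : Continuous (fun z : ℂ => ‖z‖ ^ 2) := by fun_prop
      have ht := hcont.tendsto ((Real.sqrt s : ℝ) : ℂ)
      simp only [hnorm s hs0.le] at ht
      filter_upwards [ht.eventually (Ioo_mem_nhds hs1 hs2)] with z hz
      rw [he _ hz.2.le, hc2 _ hz.1.le]
      simp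
    have h2 := han'.eqOn_zero_of_preconnected_of_eventuallyEq_zero
      (convex_ball (0 : ℂ) 1).isPreconnected (hball s hs0.le (by linarith)) hz
    have h3 := h2 (hball u hu0 (by linarith))
    simp only [hnorm u hu0, Pi.zero_apply] at h3
    rw [he u (by linarith)] at h3
    exact hu (by exact_mod_cast h3)

end Pool.Agent.Results.MP_9de1de_an.OpenDiscCounterexample
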